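import Pool.Agent.CUN.Main

/-! # A clean ring whose units are nil-clean and which is not weakly nil-clean
(problem MP_0ec41e_al, negative answer to Q1)

The proof is in `Pool.Agent.CUN` (`main_D`, `main`). -/

set_option autoImplicit false

namespace Pool.Agent.Results.MP_0ec41e_al.NegativeAnswer

/-- There is a ring `R` with `2 = 0` in which every element is the sum of an idempotent and a unit,
every unit is the sum of an idempotent and a nilpotent element, and which has an element `a` such
that `a - e` and `a + e` are not nilpotent for every idempotent `e`. -/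
theorem result : ∃ (R : Type) (_ : Ring R),
    (∀ a : R, ∃ e u : R, e * e = e ∧ IsUnit u ∧ a = e + u) ∧
    (∀ u : R, IsUnit u → ∃ e : R, e * e = e ∧ (IsNilpotent (u - e) ∨ IsNilpotent (u + e))) ∧
    (∃ a : R, ∀ e : R, e * e = e → ¬ IsNilpotent (a - e) ∧ ¬ IsNilpotent (a + e)) ∧
    (2 : R) = 0 ∧
    ∀ u : R, IsUnit u → ∃ e : R, e * e = e ∧ IsNilpotent (u - e) := by
  obtain ⟨R, hR, h2, hc, hu, a, ha⟩ := CUN.main
  refine ⟨R, hR, hc, fun u h => ?_, ⟨a, fun e he => ⟨ha e he, ?_⟩⟩, ?_, hu⟩
  · obtain ⟨e, he, hn⟩ := hu u h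
    exact ⟨e, he, Or.inl hn⟩
  · have h3 : a + e = a - e := by
      rw [eq_sub_iff_add_eq, add_assoc, h2 e, add_zero]
    rw [h3]
    exact ha e he
  · rw [← one_add_one_eq_two]
    exact h2 1

end Pool.Agent.Results.MP_0ec41e_al.NegativeAnswer
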