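import Pool.Agent.CleanUWNC.Base

/-! # Structure of clean rings whose units are weakly nil-clean (problem MP_0ec41e_al)

The proof is in `Pool.Agent.CleanUWNC.Base`. -/

set_option autoImplicit false

namespace Pool.Agent.Results.MP_0ec41e_al.Structure

open Pool.Agent.CleanUWNC

universe u

/-- Let `R` be a clean ring whose units are weakly nil-clean. There is a central idempotent `c` such
that a power of `2` annihilates `c`, a power of `3` annihilates `1 - c`, every element of
`(1 - c) R` is `0`, `1 - c` or `-(1 - c)` up to a nilpotent element, `c u` is nil-clean for every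
unit `u`, and every element of `R` is weakly nil-clean if and only if `c x` is nil-clean for all
`x`. If `R` has no nonzero central idempotent annihilated by a power of `2` then every element of
`R` is weakly nil-clean. -/
theorem result (R : Type u) [Ring R] (hc : Clean R) (hu : UWNC R) :
    (∃ c : R, c * c = c ∧ (∀ x, c * x = x * c) ∧ (∃ k : ℕ, (2 : R) ^ k * c = 0) ∧
      (∃ m : ℕ, (3 : R) ^ m * (1 - c) = 0) ∧
      (∀ x : R, IsNilpotent ((1 - c) * x) ∨ IsNilpotent ((1 - c) * (x - 1)) ∨
        IsNilpotent ((1 - c) * (x + 1))) ∧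
      (∀ u : R, IsUnit u → NilC (c * u)) ∧
      ((∀ x : R, WNil x) ↔ ∀ x : R, NilC (c * x))) ∧
    ((∀ (c : R) (k : ℕ), c * c = c → (∀ x, c * x = x * c) → (2 : R) ^ k * c = 0 → c = 0) →
      ∀ x : R, WNil x) := by
  refine ⟨structure_thm hc hu, fun h => ?_⟩
  obtain ⟨c, hc2, hcc, ⟨k, hk⟩, -, -, -, hiff⟩ := structure_thm hc hu
  have h0 := h c k hc2 hcc hk
  refine hiff.2 fun x => ⟨0, by rw [mul_zero], ?_⟩
  rw [h0, zero_mul, sub_zero]
  exact IsNilpotent.zero

end Pool.Agent.Results.MP_0ec41e_al.Structure
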